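import Mathlib
import Pool.Agent.Q213.IndTop

/-!
# A non-meager filter `𝓕` with `𝓕 × 𝓕⁺` not homeomorphic to `𝓕⁺`

Subsets of `ℕ` are identified with their characteristic functions `ℕ → Bool`.  The filter is the
intersection of two ultrafilters; it is not even homeomorphic to a closed subspace of the space
of its positive sets.
-/

namespace Pool.Agent.Results.MP_ba1c1e_lc.NotHomeomorphic

open Filter Topology

/-- The characteristic functions of the members of the filter, as a subspace of `2 ^ ω`. -/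
def members (𝓕 : Filter ℕ) : Set (ℕ → Bool) := {x | {n | x n = true} ∈ 𝓕}

/-- The characteristic functions of the positive sets: those which meet every member of `𝓕`. -/
def positive (𝓕 : Filter ℕ) : Set (ℕ → Bool) := {x | ∀ A ∈ 𝓕, ∃ n ∈ A, x n = true}

open Pool.Agent.Q213.IndUlt in
/-- The filter generated on `ℕ` by a copy of `U` on the even and a copy of `V` on the odd numbers
is not meager. -/
lemma not_isMeagre (U V : Ultrafilter ℕ) : ¬ IsMeagre (MM U V) := by
  intro h
  let c : Bool → Bool → (ℕ → Bool) := fun a b => join (fun _ => a) (fun _ => b)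
  have h1 : ∀ a b, IsMeagre ((sdHomeo (c a b)) ⁻¹' (MM U V)) := fun a b =>
    h.preimage_of_isOpenMap (Homeomorph.continuous _) (Homeomorph.isOpenMap _)
  have h2 : (⋃ p : Bool × Bool, (sdHomeo (c p.1 p.2)) ⁻¹' (MM U V)) = Set.univ := by
    apply Set.eq_univ_of_forall
    intro w
    have key : ∀ (W : Ultrafilter ℕ) (x : ℕ → Bool), ∃ a : Bool,
        val (sd x (fun _ => a)) true ∈ W := by
      intro W x
      by_cases hx : val x true ∈ W
      · exact ⟨false, by rw [sd_zero]; exact hx⟩
      · refine ⟨true, ?_⟩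
        rw [← val_false_mem] at hx
        refine mem_of_superset hx ?_
        intro n hn
        have : x n = false := hn
        simp [val, sd, this]
    obtain ⟨a, ha⟩ := key U (left w)
    obtain ⟨b, hb⟩ := key V (right w)
    refine Set.mem_iUnion.2 ⟨(a, b), ?_, ?_⟩
    · show val (left (sd w (c a b))) true ∈ U
      rw [left_sd, left_join]
      exact ha
    · show val (right (sd w (c a b))) true ∈ V
      rw [right_sd, right_join]
      exact hb
  have h3 : IsMeagre (Set.univ : Set (ℕ → Bool)) := by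
    rw [← h2]
    exact isMeagre_iUnion fun p => h1 p.1 p.2
  have h4 : (Set.univ : Set (ℕ → Bool))ᶜ ∈ residual (ℕ → Bool) := h3
  rw [Set.compl_univ, mem_residual] at h4
  obtain ⟨t, ht, -, hd⟩ := h4
  rw [Set.subset_empty_iff.1 ht] at hd
  exact absurd hd.nonempty (by simp)

open Pool.Agent.Q213.IndUlt in
/-- **Theorem.** There are two free ultrafilters on `ℕ` such that their intersection, the filter
`𝓕 = U ⊔ V`, is not meager, is not homeomorphic to a closed subspace of the space `𝓕⁺` of its
positive sets, and in particular `𝓕 × 𝓕⁺` is not homeomorphic to `𝓕⁺`. -/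
theorem result : ∃ (U V : Ultrafilter ℕ) (𝓕 : Filter ℕ), 𝓕 = ↑U ⊔ ↑V ∧
    𝓕.NeBot ∧ 𝓕 ≤ cofinite ∧ ¬ IsMeagre (members 𝓕) ∧
    (¬ ∃ e : members 𝓕 → positive 𝓕, IsClosedEmbedding e) ∧
    IsEmpty (members 𝓕 × positive 𝓕 ≃ₜ positive 𝓕) := by
  obtain ⟨U, V, hU, hV, hUV⟩ := exists_no_closed_embedding
  let d : ℕ → ℕ := fun n => 2 * n
  let d' : ℕ → ℕ := fun n => 2 * n + 1
  have hd : Function.Injective d := fun m n h => by simp only [d] at h; omega
  have hd' : Function.Injective d' := fun m n h => by simp only [d'] at h; omega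
  let 𝓕 : Filter ℕ := ↑(U.map d) ⊔ ↑(V.map d')
  have hmem : members 𝓕 = MM U V := rfl
  have hpos : positive 𝓕 = PP U V := by
    ext w
    constructor
    · intro hw
      by_contra hc
      have h1 : val (left w) true ∉ U := fun h => hc (Or.inl h)
      have h2 : val (right w) true ∉ V := fun h => hc (Or.inr h)
      rw [← val_false_mem] at h1 h2
      obtain ⟨n, hn, hn'⟩ := hw {n | w n = false} ⟨h1, h2⟩
      have : w n = false := hn
      rw [this] at hn'
      exact absurd hn' (by simp)
    · rintro (hw | hw) A ⟨hA, hA'⟩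
      · have h1 : d ⁻¹' A ∈ U := hA
        obtain ⟨n, hn, hn'⟩ := Ultrafilter.nonempty_of_mem (inter_mem h1 hw)
        exact ⟨d n, hn, hn'⟩
      · have h1 : d' ⁻¹' A ∈ V := hA'
        obtain ⟨n, hn, hn'⟩ := Ultrafilter.nonempty_of_mem (inter_mem h1 hw)
        exact ⟨d' n, hn, hn'⟩
  have hno : ¬ ∃ e : members 𝓕 → positive 𝓕, IsClosedEmbedding e := by
    rw [hpos]
    exact hUV
  refine ⟨U.map d, V.map d', 𝓕, rfl, ?_, ?_, ?_, hno, ⟨fun h => hno ?_⟩⟩
  · exact (Ultrafilter.neBot _).mono le_sup_left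
  · refine sup_le ?_ ?_
    · exact (map_mono hU).trans hd.tendsto_cofinite
    · exact (map_mono hV).trans hd'.tendsto_cofinite
  · rw [hmem]
    exact not_isMeagre U V
  · have h0 : (fun _ => true : ℕ → Bool) ∈ positive 𝓕 := by
      intro A hA
      have : 𝓕.NeBot := (Ultrafilter.neBot (U.map d)).mono le_sup_left
      obtain ⟨n, hn⟩ := Filter.nonempty_of_mem hA
      exact ⟨n, hn, rfl⟩
    refine ⟨fun m => h (m, ⟨_, h0⟩), h.isClosedEmbedding.comp ?_⟩
    refine ⟨isEmbedding_prodMkLeft _, ?_⟩
    have : Set.range (fun m : members 𝓕 => (m, (⟨_, h0⟩ : positive 𝓕))) =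
        Prod.snd ⁻¹' {(⟨_, h0⟩ : positive 𝓕)} := by
      ext p
      constructor
      · rintro ⟨m, rfl⟩
        rfl
      · intro hp
        exact ⟨p.1, Prod.ext rfl (Eq.symm hp)⟩
    rw [this]
    exact isClosed_singleton.preimage continuous_snd

end Pool.Agent.Results.MP_ba1c1e_lc.NotHomeomorphic
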